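import Mathlib
import Pool.Agent.Helper152.HilbK

open Filter Topology MeasureTheory

namespace Pool.Agent.Results.MP_b37156_an.HilbertSpectrum

open Pool.Agent.Helper152.Hilb

noncomputable section

/-- weighted counting measure on the natural numbers: the point `n` has mass `(n+1)^α` -/
def wt (α : ℝ) : Measure ℕ :=
  Measure.sum fun n : ℕ => ENNReal.ofReal (((n : ℝ) + 1) ^ α) • Measure.dirac n

/-- the weighted space of sequences with `∑ |a n|^2 (n+1)^α` finite -/
def Wsp (α : ℝ) : Type := Lp ℂ 2 (wt α)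

instance instNormedWsp (α : ℝ) : NormedAddCommGroup (Wsp α) :=
  Lp.instNormedAddCommGroup (E := ℂ) (p := 2) (μ := wt α)

instance instInnerWsp (α : ℝ) : InnerProductSpace ℂ (Wsp α) :=
  L2.innerProductSpace (𝕜 := ℂ) (E := ℂ) (μ := wt α)

instance instCompleteWsp (α : ℝ) : CompleteSpace (Wsp α) :=
  (inferInstance : CompleteSpace (Lp ℂ 2 (wt α)))

/-- the `n`-th entry of an element of the weighted space -/
def ent {α : ℝ} (a : Wsp α) (n : ℕ) : ℂ := (show Lp ℂ 2 (wt α) from a) n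

/-- bounded linear operators on the weighted space -/
abbrev Op (α : ℝ) : Type := Wsp α →L[ℂ] Wsp α

/-- the spectrum: all `l` for which `T - l` has no bounded inverse `R` on the weighted space -/
def spec (α : ℝ) (T : Op α) : Set ℂ :=
  {l | ¬ ∃ R : Op α, ∀ a : Wsp α, R (T a - l • a) = a ∧ T (R a) - l • R a = a}

/-- the bounded operator `T` on the weighted space is given by the Hilbert matrix -/
def IsHilbertOperator (α : ℝ) (T : Op α) : Prop :=
  ∀ (a : Wsp α) (m : ℕ), HasSum (fun n : ℕ => ent a n / ((m : ℂ) + n + 1)) (ent (T a) m)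

theorem all_of_ae {α : ℝ} {p : ℕ → Prop} (h : ∀ᵐ n ∂(wt α), p n) (n : ℕ) : p n := by
  rw [wt, Measure.ae_sum_iff] at h
  have h1 := h n
  have hc : ENNReal.ofReal (((n : ℝ) + 1) ^ α) ≠ 0 := by
    rw [Ne, ENNReal.ofReal_eq_zero, not_le]
    positivity
  rw [ae_iff, Measure.smul_apply, smul_eq_mul, mul_eq_zero, or_iff_right hc,
    Measure.dirac_apply' _ (Set.to_countable _).measurableSet] at h1
  by_contra hp
  have hmem : n ∈ {a | ¬ p a} := hp
  rw [Set.indicator_of_mem hmem] at h1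
  simp at h1

theorem lint (α : ℝ) (f : ℕ → ENNReal) :
    ∫⁻ n, f n ∂(wt α) = ∑' n : ℕ, ENNReal.ofReal (((n : ℝ) + 1) ^ α) * f n := by
  rw [wt, lintegral_sum_measure]
  congr 1
  funext n
  rw [lintegral_smul_measure, lintegral_dirac, smul_eq_mul]

theorem memLp_iff (α : ℝ) (f : ℕ → ℂ) :
    MemLp f 2 (wt α) ↔ Summable fun n : ℕ => ‖f n‖ ^ 2 * ((n : ℝ) + 1) ^ α := by
  have hm : AEStronglyMeasurable f (wt α) := (measurable_of_countable f).aestronglyMeasurable
  rw [memLp_two_iff_integrable_sq_norm hm]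
  have h1 : ∀ n : ℕ, ENNReal.ofReal (((n : ℝ) + 1) ^ α) * ‖‖f n‖ ^ 2‖ₑ =
      ENNReal.ofReal (‖f n‖ ^ 2 * ((n : ℝ) + 1) ^ α) := by
    intro n
    rw [Real.enorm_of_nonneg (by positivity), ← ENNReal.ofReal_mul (by positivity), mul_comm]
  have h2 : HasFiniteIntegral (fun n => ‖f n‖ ^ 2) (wt α) ↔
      ∑' n : ℕ, ENNReal.ofReal (‖f n‖ ^ 2 * ((n : ℝ) + 1) ^ α) < ⊤ := by
    rw [HasFiniteIntegral, lint]
    simp_rw [h1]
  constructor
  · intro h
    have h3 := h2.1 h.2
    have h4 := ENNReal.summable_toReal h3.ne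
    apply h4.congr
    intro n
    rw [ENNReal.toReal_ofReal (by positivity)]
  · intro h
    refine ⟨hm.norm.pow 2, h2.2 ?_⟩
    rw [← ENNReal.ofReal_tsum_of_nonneg (fun n => by positivity) h]
    exact ENNReal.ofReal_lt_top

theorem int_wt (α : ℝ) (g : ℕ → ℝ) (hg : Integrable g (wt α)) :
    ∫ n, g n ∂(wt α) = ∑' n : ℕ, g n * ((n : ℝ) + 1) ^ α := by
  rw [wt] at hg ⊢
  rw [integral_sum_measure hg]
  congr 1
  funext n
  rw [integral_smul_measure, integral_dirac, ENNReal.toReal_ofReal (by positivity), smul_eq_mul, mul_comm]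

theorem norm_sq' (α : ℝ) (a : Lp ℂ 2 (wt α)) : ‖a‖ ^ 2 = ∑' n : ℕ, ‖a n‖ ^ 2 * ((n : ℝ) + 1) ^ α := by
  have h1 : ‖a‖ ^ 2 = ∫ n, ‖a n‖ ^ 2 ∂(wt α) := by
    have h6 := L2.inner_def (𝕜 := ℂ) a a
    rw [inner_self_eq_norm_sq_to_K] at h6
    have h7 : ((‖a‖ ^ 2 : ℝ) : ℂ) = ((∫ x, ‖a x‖ ^ 2 ∂(wt α) : ℝ) : ℂ) := by
      rw [← integral_complex_ofReal]
      push_cast
      refine Eq.trans ?_ (h6.trans ?_)
      · rfl
      · apply integral_congr_ae
        filter_upwards with x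
        rw [inner_self_eq_norm_sq_to_K]
        rfl
    exact_mod_cast h7
  have h2 : Integrable (fun n => ‖a n‖ ^ 2) (wt α) :=
    (memLp_two_iff_integrable_sq_norm (Lp.memLp a).1).1 (Lp.memLp a)
  rw [h1]
  exact int_wt α _ h2

theorem norm_sq (α : ℝ) (a : Wsp α) : ‖a‖ ^ 2 = ∑' n : ℕ, ‖ent a n‖ ^ 2 * ((n : ℝ) + 1) ^ α :=
  norm_sq' α a

theorem wsq (α : ℝ) (n : ℕ) (c : ℂ) :
    ‖((((n : ℝ) + 1) ^ (α / 2) : ℝ) : ℂ) * c‖ ^ 2 = ‖c‖ ^ 2 * ((n : ℝ) + 1) ^ α := by
  rw [norm_mul, Complex.norm_real, Real.norm_of_nonneg (by positivity), mul_pow,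
    rpow_sq _ _ (by positivity), mul_comm]
  congr 2
  ring

theorem summ_of_mem (α : ℝ) (a : Wsp α) : Summable fun n : ℕ => ‖ent a n‖ ^ 2 * ((n : ℝ) + 1) ^ α :=
  (memLp_iff α _).1 (Lp.memLp (show Lp ℂ 2 (wt α) from a))

theorem ent_add {α : ℝ} (a b : Wsp α) (n : ℕ) : ent (a + b) n = ent a n + ent b n :=
  all_of_ae (Lp.coeFn_add (show Lp ℂ 2 (wt α) from a) (show Lp ℂ 2 (wt α) from b)) n

theorem ent_smul {α : ℝ} (c : ℂ) (a : Wsp α) (n : ℕ) : ent (c • a) n = c * ent a n :=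
  all_of_ae (Lp.coeFn_smul c (show Lp ℂ 2 (wt α) from a)) n

theorem mem_E {f : ℕ → ℂ} (h : Summable fun n => ‖f n‖ ^ 2) : Memℓp (E := fun _ : ℕ => ℂ) f 2 :=
  memlp_of_sum (C := ∑' n, ‖f n‖ ^ 2) fun t => h.sum_le_tsum t (fun n _ => by positivity)

/-- the linear isometry onto the unweighted space -/
def Uli (α : ℝ) : Wsp α →ₗᵢ[ℂ] E where
  toFun a := ⟨fun n : ℕ => ((((n : ℝ) + 1) ^ (α / 2) : ℝ) : ℂ) * ent a n, mem_E (by
    simp_rw [wsq]
    exact summ_of_mem α a)⟩
  map_add' a b := by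
    ext n
    simp only [lp.coeFn_add, Pi.add_apply]
    rw [ent_add]
    ring
  map_smul' c a := by
    ext n
    simp only [lp.coeFn_smul, Pi.smul_apply, smul_eq_mul, RingHom.id_apply]
    rw [ent_smul]
    ring
  norm_map' a := by
    have h1 := norm_sq α a
    have h2 := norm_sq_eq (⟨fun n : ℕ => ((((n : ℝ) + 1) ^ (α / 2) : ℝ) : ℂ) * ent a n, mem_E (by
      simp_rw [wsq]
      exact summ_of_mem α a)⟩ : E)
    simp only [wsq] at h2
    rw [← h1] at h2
    exact (sq_eq_sq₀ (norm_nonneg _) (norm_nonneg _)).1 h2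

theorem Uli_apply (α : ℝ) (a : Wsp α) (n : ℕ) :
    Uli α a n = ((((n : ℝ) + 1) ^ (α / 2) : ℝ) : ℂ) * ent a n := rfl

theorem wne (α : ℝ) (n : ℕ) : ((((n : ℝ) + 1) ^ (α / 2) : ℝ) : ℂ) ≠ 0 := by
  rw [Complex.ofReal_ne_zero]
  positivity

theorem Uli_surj (α : ℝ) : Function.Surjective (Uli α) := by
  intro x
  have hm : MemLp (fun n : ℕ => x n / ((((n : ℝ) + 1) ^ (α / 2) : ℝ) : ℂ)) 2 (wt α) := by
    rw [memLp_iff]
    apply (summable_sq x).congr
    intro n
    rw [← wsq, mul_div_cancel₀ _ (wne α n)]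
  refine ⟨(hm.toLp : Lp ℂ 2 (wt α)), ?_⟩
  ext n
  have h : ent (α := α) (hm.toLp : Lp ℂ 2 (wt α)) n = x n / ((((n : ℝ) + 1) ^ (α / 2) : ℝ) : ℂ) :=
    all_of_ae hm.coeFn_toLp n
  rw [Uli_apply, h, mul_div_cancel₀ _ (wne α n)]

/-- unitary equivalence with the unweighted space -/
def Ue (α : ℝ) : Wsp α ≃ₗᵢ[ℂ] E := LinearIsometryEquiv.ofSurjective (Uli α) (Uli_surj α)

theorem Ue_apply (α : ℝ) (a : Wsp α) (n : ℕ) :
    Ue α a n = ((((n : ℝ) + 1) ^ (α / 2) : ℝ) : ℂ) * ent a n := rfl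

theorem kA_weight (α : ℝ) (m n : ℕ) (c : ℂ) :
    kA α m n * (((((n : ℝ) + 1) ^ (α / 2) : ℝ) : ℂ) * c) =
      ((((m : ℝ) + 1) ^ (α / 2) : ℝ) : ℂ) * (c / ((m : ℂ) + n + 1)) := by
  have h1 : ((n : ℝ) + 1) ^ (-(α / 2)) * ((n : ℝ) + 1) ^ (α / 2) = 1 := by
    rw [← Real.rpow_add (by positivity)]
    simp
  have h2 : (((((n : ℝ) + 1) ^ (-(α / 2)) : ℝ) : ℂ)) * ((((n : ℝ) + 1) ^ (α / 2) : ℝ) : ℂ) = 1 := by
    rw [← Complex.ofReal_mul, h1, Complex.ofReal_one]
  rw [kA, exp_ll]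
  push_cast at h2 ⊢
  rw [div_mul_eq_mul_div, mul_div_assoc']
  congr 1
  linear_combination ((((m : ℝ) + 1) ^ (α / 2) : ℝ) : ℂ) * c * h2

/-- the conjugated operator has the conjugated matrix -/
theorem conj_hasSum {α : ℝ} {T : Wsp α →L[ℂ] Wsp α} (hT : IsHilbertOperator α T) (x : E) (m : ℕ) :
    HasSum (fun n => kA α m n * x n) (Ue α (T ((Ue α).symm x)) m) := by
  have h1 := (hT ((Ue α).symm x) m).mul_left ((((m : ℝ) + 1) ^ (α / 2) : ℝ) : ℂ)
  rw [Ue_apply]
  have e : (fun n => kA α m n * x n) = fun n : ℕ => ((((m : ℝ) + 1) ^ (α / 2) : ℝ) : ℂ) *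
      (ent ((Ue α).symm x) n / ((m : ℂ) + n + 1)) := by
    funext n
    have h2 : x n = Ue α ((Ue α).symm x) n := by rw [LinearIsometryEquiv.apply_symm_apply]
    rw [h2, Ue_apply, kA_weight]
  rw [e]
  exact h1

theorem exists_of_lt {α : ℝ} (hα : |α| < 1) : ∃ T : Wsp α →L[ℂ] Wsp α, IsHilbertOperator α T := by
  refine ⟨((Ue α).symm.toContinuousLinearEquiv : E →L[ℂ] Wsp α) ∘L (opA α) ∘L
    ((Ue α).toContinuousLinearEquiv : Wsp α →L[ℂ] E), ?_⟩
  intro a m
  have h1 := opA_hasSum hα (Ue α a) m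
  set b : Wsp α := (Ue α).symm (opA α (Ue α a)) with hb
  have h2 : opA α (Ue α a) m = ((((m : ℝ) + 1) ^ (α / 2) : ℝ) : ℂ) * ent b m := by
    rw [← Ue_apply, hb, LinearIsometryEquiv.apply_symm_apply]
  rw [h2] at h1
  have e : (fun n => kA α m n * (Ue α a) n) = fun n : ℕ => ((((m : ℝ) + 1) ^ (α / 2) : ℝ) : ℂ) *
      (ent a n / ((m : ℂ) + n + 1)) := by
    funext n
    rw [Ue_apply, kA_weight]
  rw [e] at h1
  exact (hasSum_mul_left_iff (wne α m)).1 h1

theorem lt_of_exists {α : ℝ} {T : Wsp α →L[ℂ] Wsp α} (hT : IsHilbertOperator α T) : |α| < 1 := by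
  set S : E →L[ℂ] E := ((Ue α).toContinuousLinearEquiv : Wsp α →L[ℂ] E) ∘L T ∘L
    ((Ue α).symm.toContinuousLinearEquiv : E →L[ℂ] Wsp α) with hS
  have hSx : ∀ x m, HasSum (fun n => kA α m n * x n) (S x m) := fun x m => conj_hasSum hT x m
  rw [abs_lt]
  constructor
  · by_contra hcon
    have hα : α ≤ -1 := by linarith [not_lt.1 hcon]
    -- test vectors
    set w : ℕ → ℝ := fun n => ((n : ℝ) + 1) ^ (-(α / 2) - 1) with hw
    set x : ℕ → E := fun N => ∑ n ∈ Finset.range N, lp.single (E := fun _ : ℕ => ℂ) 2 n ((w n : ℝ) : ℂ) with hx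
    have hxa : ∀ N n, x N n = if n < N then ((w n : ℝ) : ℂ) else 0 := by
      intro N n
      rw [hx]
      simp only
      rw [lp.coeFn_sum, Finset.sum_apply]
      split_ifs with h
      · rw [Finset.sum_eq_single n]
        · exact lp.single_apply_self (E := fun _ : ℕ => ℂ) 2 n _
        · intro b _ hb
          exact lp.single_apply_ne (E := fun _ : ℕ => ℂ) 2 b _ hb.symm
        · intro h'
          exact absurd (Finset.mem_range.2 h) h'
      · apply Finset.sum_eq_zero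
        intro b hb
        apply lp.single_apply_ne (E := fun _ : ℕ => ℂ) 2 b _
        intro h'
        rw [h'] at h
        exact h (Finset.mem_range.1 hb)
    have hn : ∀ N, ‖x N‖ ^ 2 = ∑ n ∈ Finset.range N, w n ^ 2 := by
      intro N
      rw [norm_sq_eq, tsum_eq_sum (s := Finset.range N)]
      · apply Finset.sum_congr rfl
        intro n hn
        rw [hxa, if_pos (Finset.mem_range.1 hn), Complex.norm_real, Real.norm_eq_abs, sq_abs]
      · intro n hn
        rw [hxa, if_neg (by simpa using hn), norm_zero]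
        norm_num
    have h0 : ∀ N, S (x N) 0 = ((∑ n ∈ Finset.range N, w n ^ 2 : ℝ) : ℂ) := by
      intro N
      refine (hSx (x N) 0).unique ?_
      have e : ((∑ n ∈ Finset.range N, w n ^ 2 : ℝ) : ℂ) = ∑ n ∈ Finset.range N, kA α 0 n * x N n := by
        push_cast
        apply Finset.sum_congr rfl
        intro n hn
        rw [hxa, if_pos (Finset.mem_range.1 hn), pow_two]
        congr 1
        rw [kA, exp_ll, hw]
        simp only [Nat.cast_zero, zero_add, Real.one_rpow, one_mul]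
        rw [Real.rpow_sub_one (by positivity)]
      rw [e]
      apply hasSum_sum_of_ne_finset_zero
      intro n hn
      rw [hxa, if_neg (by simpa using hn), mul_zero]
    have hbound : ∀ N, ∑ n ∈ Finset.range N, w n ^ 2 ≤ ‖S‖ ^ 2 := by
      intro N
      set Q := ∑ n ∈ Finset.range N, w n ^ 2 with hQ
      have hQ0 : 0 ≤ Q := Finset.sum_nonneg fun n _ => by positivity
      have h1 : Q ≤ ‖S‖ * ‖x N‖ := by
        have h2 : ‖S (x N) 0‖ ≤ ‖S (x N)‖ := lp.norm_apply_le_norm (p := 2) (by norm_num) (S (x N)) 0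
        rw [h0 N, Complex.norm_real, Real.norm_of_nonneg hQ0] at h2
        exact h2.trans (S.le_opNorm _)
      have h2 : Q ^ 2 ≤ ‖S‖ ^ 2 * Q := by
        calc Q ^ 2 ≤ (‖S‖ * ‖x N‖) ^ 2 := pow_le_pow_left₀ hQ0 h1 2
          _ = ‖S‖ ^ 2 * Q := by rw [mul_pow, hn N]
      rcases hQ0.eq_or_lt with h3 | h3
      · rw [← h3]; positivity
      · nlinarith
    have hsum : Summable fun n => w n ^ 2 := summable_of_sum_range_le (fun n => by positivity) hbound
    have h2 : Summable fun n : ℕ => ((n : ℝ) + 1) ^ (2 * (-(α / 2) - 1)) := by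
      apply hsum.congr
      intro n
      rw [hw]
      simp only
      rw [rpow_sq _ _ (by positivity)]
    rw [summable_shift] at h2
    linarith
  · by_contra hcon
    have hα : 1 ≤ α := not_lt.1 hcon
    set e0 : E := lp.single (E := fun _ : ℕ => ℂ) 2 0 (1 : ℂ) with he0
    have h1 : ∀ m, S e0 m = kA α m 0 := by
      intro m
      refine (hSx e0 m).unique ?_
      have e : kA α m 0 = kA α m 0 * e0 0 := by
        rw [he0, lp.single_apply_self (E := fun _ : ℕ => ℂ) 2 0 (1 : ℂ), mul_one]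
      rw [e]
      apply hasSum_single
      intro n hn
      rw [he0, lp.single_apply_ne (E := fun _ : ℕ => ℂ) 2 0 (1 : ℂ) hn, mul_zero]
    have h2 := summable_sq (S e0)
    have h3 : Summable fun m : ℕ => ((m : ℝ) + 1) ^ (2 * (α / 2 - 1)) := by
      apply h2.congr
      intro m
      rw [h1 m, kA_norm, exp_ll, ← rpow_sq _ _ (by positivity), Real.rpow_sub_one (by positivity)]
      simp
    rw [summable_shift] at h3
    linarith

theorem spec_eq {α : ℝ} {T : Wsp α →L[ℂ] Wsp α} (hT : IsHilbertOperator α T) :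
    spectrum ℂ T = Reg α := by
  have hα := lt_of_exists hT
  have h1 : (Ue α).toContinuousLinearEquiv.conjContinuousAlgEquiv T = opA α := by
    apply ContinuousLinearMap.ext
    intro x
    ext m
    exact (conj_hasSum hT x m).unique (opA_hasSum hα x m)
  rw [← spectrum_opA hα, ← h1]
  exact (AlgEquiv.spectrum_eq ((Ue α).toContinuousLinearEquiv.conjContinuousAlgEquiv).toAlgEquiv T).symm

/-- the spectrum as defined above agrees with Mathlib's notion -/
theorem spec_eq_spectrum (α : ℝ) (T : Op α) : spec α T = spectrum ℂ T := by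
  ext l
  rw [spec, Set.mem_ofPred_eq, spectrum.mem_iff, not_iff_not]
  have hS : ∀ a, (algebraMap ℂ (Op α) l - T) a = l • a - T a := fun a => by
    rw [sub_apply, Algebra.algebraMap_eq_smul_one, smul_apply, one_apply_eq_self]
  constructor
  · rintro ⟨R, hR⟩
    refine ⟨⟨algebraMap ℂ (Op α) l - T, -R, ?_, ?_⟩, rfl⟩
    · apply ContinuousLinearMap.ext
      intro a
      change (algebraMap ℂ (Op α) l - T) ((-R) a) = a
      rw [hS, neg_apply, map_neg, smul_neg, sub_neg_eq_add, neg_add_eq_sub]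
      exact (hR a).2
    · apply ContinuousLinearMap.ext
      intro a
      change (-R) ((algebraMap ℂ (Op α) l - T) a) = a
      rw [hS, neg_apply, ← map_neg, neg_sub]
      exact (hR a).1
  · rintro ⟨u, hu⟩
    refine ⟨-((u⁻¹ : (Op α)ˣ) : Op α), fun a => ⟨?_, ?_⟩⟩
    · have h1 : ((u⁻¹ : (Op α)ˣ) : Op α) ((u : Op α) a) = a := by
        have : (((u⁻¹ : (Op α)ˣ) : Op α) * (u : Op α)) a = a := by
          rw [Units.inv_mul]; rfl
        exact this
      rw [hu, hS] at h1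
      rw [neg_apply, ← map_neg, neg_sub]
      exact h1
    · have h1 : (u : Op α) (((u⁻¹ : (Op α)ˣ) : Op α) a) = a := by
        have : ((u : Op α) * ((u⁻¹ : (Op α)ˣ) : Op α)) a = a := by
          rw [Units.mul_inv]; rfl
        exact this
      rw [hu, hS] at h1
      rw [neg_apply, map_neg, smul_neg, sub_neg_eq_add, neg_add_eq_sub]
      exact h1

/-- The Hilbert matrix acts boundedly on the weighted space exactly for `|α| < 1`, and for every
such `α` its spectrum consists of `0` and all values `π / cos (π z)` with `|Re z| ≤ |α| / 2`. -/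
theorem result :
    (∀ α : ℝ, (∃ T : Op α, IsHilbertOperator α T) ↔ |α| < 1) ∧
    ∀ (α : ℝ) (T : Op α), IsHilbertOperator α T →
      spec α T = {0} ∪ {l : ℂ | ∃ z : ℂ, |z.re| ≤ |α| / 2 ∧
        l = Real.pi / Complex.cos (Real.pi * z)} :=
  ⟨fun _ => ⟨fun ⟨_, hT⟩ => lt_of_exists hT, exists_of_lt⟩,
    fun α T hT => (spec_eq_spectrum α T).trans (spec_eq hT)⟩

end

end Pool.Agent.Results.MP_b37156_an.HilbertSpectrum
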